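import Pool.Agent.Helper9.RS.Recip

/-!
Two analytic pieces for E2 of the project PS (reciprocals of primes up to `2 ^ (2 ^ (2 ^ (l - 2)))`,
sums over the blocks).
-/

set_option autoImplicit false

namespace Pool.Agent.Helper37.PSE

open Finset

/-- sum of the reciprocals of the primes up to `2 ^ (2 ^ (2 ^ (l - 2)))` -/
theorem mertens_block : ∃ C : ℝ, 0 < C ∧ ∀ l : ℕ, 2 ≤ l →
    ∑ p ∈ (Finset.Icc 1 (2 ^ (2 ^ (2 ^ (l - 2))))).filter Nat.Prime, 1 / (p : ℝ) ≤ C * 2 ^ l := by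
  refine ⟨7, by norm_num, fun l _ => ?_⟩
  have h1 := Pool.Agent.Helper9.RS.recip (2 ^ (l - 2))
  have h2 : Pool.Agent.Helper9.RS.PP 0 (2 ^ 2 ^ 2 ^ (l - 2)) =
      (Finset.Icc 1 (2 ^ (2 ^ (2 ^ (l - 2))))).filter Nat.Prime := by
    unfold Pool.Agent.Helper9.RS.PP
    rfl
  rw [h2] at h1
  refine h1.trans ?_
  have h3 : (2 : ℝ) ^ (l - 2) ≤ 2 ^ l := pow_le_pow_right₀ (by norm_num) (by omega)
  have h4 : (1 : ℝ) ≤ 2 ^ l := one_le_pow₀ (by norm_num)
  have h5 : Real.log 2 ≤ 1 := by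
    have := Real.log_two_lt_d9
    linarith
  have h6 : (0 : ℝ) ≤ Real.log 2 := Real.log_nonneg (by norm_num)
  push_cast
  nlinarith [mul_le_mul h3 h5 h6 (by positivity : (0 : ℝ) ≤ 2 ^ l)]

/-- the sum over the blocks -/
theorem sum_blocks (D : ℝ) (hD : 0 < D) : ∃ C : ℝ, 0 < C ∧ ∀ x : ℕ, 16 ≤ x →
    ∃ L : ℕ, 3 ≤ L ∧ x ≤ 2 ^ (2 ^ (2 ^ (L - 2))) ∧
      ∑ l ∈ Finset.Icc 0 L, D * (2 : ℝ) ^ ((39 / 40 : ℝ) * l) ≤
        C * (Real.log (Real.log x)) ^ (1 - 1 / 40 : ℝ) := by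
  classical
  set r : ℝ := (2 : ℝ) ^ (39 / 40 : ℝ) with hr
  have hr1 : (3 / 2 : ℝ) ≤ r := by
    have h1 : ((3 / 2 : ℝ)) ^ (40 : ℕ) ≤ 2 ^ (39 : ℕ) := by norm_num
    have h2 : r ^ (40 : ℕ) = 2 ^ (39 : ℕ) := by
      rw [hr, ← Real.rpow_natCast, ← Real.rpow_mul (by norm_num), ← Real.rpow_natCast]
      norm_num
    have h3 : (3 / 2 : ℝ) ^ (40 : ℕ) ≤ r ^ (40 : ℕ) := by rw [h2]; exact h1
    exact le_of_pow_le_pow_left₀ (by norm_num) (by positivity) h3
  have hgeo : ∀ L : ℕ, ∑ l ∈ Finset.Icc 0 L, r ^ l ≤ 3 * r ^ L := by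
    intro L
    induction L with
    | zero => simp
    | succ L ih =>
      rw [← Finset.insert_Icc_right_eq_Icc_add_one (by omega), Finset.sum_insert (by simp)]
      have h5 : r ^ (L + 1) = r ^ L * r := pow_succ _ _
      have h6 : 0 < r ^ L := by positivity
      rw [h5]
      nlinarith
  have hpow : ∀ l : ℕ, (2 : ℝ) ^ ((39 / 40 : ℝ) * l) = r ^ l := by
    intro l
    rw [hr, Real.rpow_mul (by norm_num), Real.rpow_natCast]
  refine ⟨3 * D * (25 : ℝ) ^ (39 / 40 : ℝ), by positivity, ?_⟩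
  intro x hx
  have hex : ∃ L : ℕ, x ≤ 2 ^ (2 ^ (2 ^ (L - 2))) := by
    refine ⟨x + 2, ?_⟩
    rw [Nat.add_sub_cancel]
    have h1 : x < 2 ^ x := Nat.lt_two_pow_self
    have h2 : 2 ^ x < 2 ^ (2 ^ x) := Nat.lt_two_pow_self
    have h3 : 2 ^ (2 ^ x) < 2 ^ (2 ^ (2 ^ x)) := Nat.lt_two_pow_self
    omega
  set L := Nat.find hex with hL
  have hLx : x ≤ 2 ^ (2 ^ (2 ^ (L - 2))) := Nat.find_spec hex
  have hL3 : 3 ≤ L := by
    by_contra hcon
    have h1 : L - 2 = 0 := by omega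
    rw [h1] at hLx
    norm_num at hLx
    omega
  have hmin : 2 ^ (2 ^ (2 ^ (L - 3))) < x := by
    have h1 := Nat.find_min hex (m := L - 1) (by omega)
    rw [not_le] at h1
    have h2 : L - 1 - 2 = L - 3 := by omega
    rwa [h2] at h1
  refine ⟨L, hL3, hLx, ?_⟩
  -- the logarithms
  obtain ⟨j, hj⟩ : ∃ j, L = j + 3 := ⟨L - 3, by omega⟩
  have hj3 : L - 3 = j := by omega
  rw [hj3] at hmin
  have hlog2 : (0.6931 : ℝ) < Real.log 2 := by
    have := Real.log_two_gt_d9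
    linarith
  have h1 : (2 : ℝ) ^ (2 ^ j) * Real.log 2 ≤ Real.log x := by
    have h2 : ((2 : ℝ) ^ (2 ^ (2 ^ j))) ≤ x := by exact_mod_cast hmin.le
    have h3 := Real.log_le_log (by positivity) h2
    rw [Real.log_pow] at h3
    push_cast at h3
    exact h3
  have h2 : (2 : ℝ) ^ j * Real.log 2 + Real.log (Real.log 2) ≤ Real.log (Real.log x) := by
    have h3 := Real.log_le_log (by positivity) h1
    rw [Real.log_mul (by positivity) (by positivity), Real.log_pow] at h3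
    push_cast at h3
    exact h3
  have h3 : -(0.367 : ℝ) ≤ Real.log (Real.log 2) := by
    rw [Real.le_log_iff_exp_le (by positivity)]
    have h4 : Real.exp (-0.367) ≤ 0.693 := by
      have h5 : Real.exp (-0.367) = 1 / Real.exp 0.367 := by
        rw [Real.exp_neg, one_div]
      rw [h5]
      have h6 : (1 : ℝ) / 0.693 ≤ Real.exp 0.367 := by
        have h7 := Real.sum_le_exp_of_nonneg (x := 0.367) (by norm_num) 5
        refine le_trans ?_ h7
        norm_num [Finset.sum_range_succ, Nat.factorial]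
      calc 1 / Real.exp 0.367 ≤ 1 / (1 / 0.693) := one_div_le_one_div_of_le (by norm_num) h6
        _ = 0.693 := by norm_num
    linarith
  have h4 : (2 : ℝ) ^ L ≤ 25 * Real.log (Real.log x) := by
    have h5 : (2 : ℝ) ^ L = 8 * 2 ^ j := by
      rw [hj, pow_add]
      ring
    have h6 : (1 : ℝ) ≤ 2 ^ j := one_le_pow₀ (by norm_num)
    rw [h5]
    nlinarith
  have hll : 0 ≤ Real.log (Real.log x) := by
    have : (0 : ℝ) < 2 ^ L := by positivity
    linarith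
  calc ∑ l ∈ Finset.Icc 0 L, D * (2 : ℝ) ^ ((39 / 40 : ℝ) * l)
      = D * ∑ l ∈ Finset.Icc 0 L, r ^ l := by
        rw [Finset.mul_sum]
        exact Finset.sum_congr rfl fun l _ => by rw [hpow]
    _ ≤ D * (3 * r ^ L) := mul_le_mul_of_nonneg_left (hgeo L) hD.le
    _ = 3 * D * ((2 : ℝ) ^ L) ^ (39 / 40 : ℝ) := by
        rw [hr, ← Real.rpow_natCast, ← Real.rpow_natCast, ← Real.rpow_mul (by norm_num),
          ← Real.rpow_mul (by norm_num), mul_comm (39 / 40 : ℝ)]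
        ring
    _ ≤ 3 * D * (25 * Real.log (Real.log x)) ^ (39 / 40 : ℝ) :=
        mul_le_mul_of_nonneg_left (Real.rpow_le_rpow (by positivity) h4 (by norm_num))
          (by positivity)
    _ = 3 * D * (25 : ℝ) ^ (39 / 40 : ℝ) * (Real.log (Real.log x)) ^ (1 - 1 / 40 : ℝ) := by
        rw [Real.mul_rpow (by norm_num) hll]
        norm_num
        ring

end Pool.Agent.Helper37.PSE
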