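import Pool.Agent.Helper37.PSE.Blocks

/-!
The block part of E2 of the project PS.
-/

set_option autoImplicit false

namespace Pool.Agent.Helper37.PSE

open Finset

/-- end of the block `l` -/
def zz (l : ℕ) : ℕ := 2 ^ (2 ^ (2 ^ (l - 2)))

theorem zz_lower (l : ℕ) (hl : 3 ≤ l) : 2 ^ (2 ^ (l - 2)) ≤ zz (l - 1) := by
  unfold zz
  apply Nat.pow_le_pow_right (by norm_num)
  apply Nat.pow_le_pow_right (by norm_num)
  obtain ⟨j, rfl⟩ : ∃ j, l = j + 3 := ⟨l - 3, by omega⟩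
  have h1 : j < 2 ^ j := Nat.lt_two_pow_self
  have h2 : j + 3 - 1 - 2 = j := by omega
  rw [h2]
  omega

theorem tiny (l : ℕ) (hl : 6 ≤ l) : l + 1 + 2 ^ (l - 2) ≤ 2 ^ (2 ^ (l - 3)) := by
  obtain ⟨j, rfl⟩ : ∃ j, l = j + 6 := ⟨l - 6, by omega⟩
  have h2 : j + 6 - 2 = j + 4 := by omega
  have h3 : j + 6 - 3 = j + 3 := by omega
  rw [h2, h3]
  have h4 : j + 5 ≤ 2 ^ (j + 3) := by
    have h1 : j < 2 ^ j := Nat.lt_two_pow_self
    have h6 : 2 ^ (j + 3) = 8 * 2 ^ j := by ring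
    omega
  have h5 : 2 ^ (j + 5) ≤ 2 ^ (2 ^ (j + 3)) := Nat.pow_le_pow_right (by norm_num) h4
  have h6 : 2 ^ (j + 5) = 32 * 2 ^ j := by ring
  have h7 : 2 ^ (j + 4) = 16 * 2 ^ j := by ring
  have h1 : j < 2 ^ j := Nat.lt_two_pow_self
  omega

theorem sum_biUnion_le_rc (s : Finset ℕ) (B : ℕ → Finset ℕ) (g : ℕ → ℝ) (hg : ∀ p, 0 ≤ g p) :
    ∑ p ∈ s.biUnion B, g p ≤ ∑ l ∈ s, ∑ p ∈ B l, g p := by
  classical
  induction s using Finset.induction_on with
  | empty => simp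
  | insert a s ha ih =>
    rw [biUnion_insert, sum_insert ha]
    have h1 := sum_union_inter (s₁ := B a) (s₂ := s.biUnion B) (f := g)
    have h2 : 0 ≤ ∑ p ∈ B a ∩ s.biUnion B, g p := sum_nonneg fun p _ => hg p
    linarith

open Classical in
theorem block_total (P : Set ℕ) (f : ℕ → ℕ) (T L0 : ℕ) (hT : 1 ≤ T) (hP : ∀ p ∈ P, p.Prime)
    (hf : ∀ p ∈ P, 0 < f p)
    (hfew : ∀ l ≥ L0, ∀ Q : Finset ℕ, (∀ p ∈ Q, p ∈ P ∧ 2 ^ (2 ^ (l - 2)) < p ∧
      p ≤ 2 ^ (2 ^ (2 ^ (l - 2))) ∧ (T * f p) ^ 40 ≤ 2 ^ l) →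
      Q.card ≤ 2 ^ l * (2 * 2 ^ (2 ^ (l - 2)))) :
    ∃ C ε : ℝ, 0 < C ∧ 0 < ε ∧ ε < 1 ∧ ∀ x : ℕ, 16 ≤ x →
      ∑ p ∈ (Icc 1 x).filter (fun p => p ∈ P), 1 / ((f p : ℝ) * (p : ℝ)) ≤
        C * (Real.log (Real.log x)) ^ (1 - ε) := by
  obtain ⟨M, hM0, hM⟩ := mertens_block
  set W : ℕ := max L0 6 with hW
  set D : ℝ := 2 + T * M + M * 2 ^ W with hD
  have hT1 : (1 : ℝ) ≤ T := by exact_mod_cast hT
  have hD0 : 0 < D := by positivity
  obtain ⟨C, hC0, hC⟩ := sum_blocks D hD0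
  refine ⟨C, 1 / 40, hC0, by norm_num, by norm_num, ?_⟩
  intro x hx
  obtain ⟨L, hL3, hxL, hsum⟩ := hC x hx
  refine le_trans ?_ hsum
  -- the blocks
  set Bl : ℕ → Finset ℕ := fun l => (Icc 1 (zz l)).filter (fun p => p ∈ P ∧ (l = 2 ∨ zz (l - 1) < p))
    with hBl
  have hpos : ∀ p : ℕ, 0 ≤ 1 / ((f p : ℝ) * (p : ℝ)) := fun p => by positivity
  have hcover : (Icc 1 x).filter (fun p => p ∈ P) ⊆ (Icc 2 L).biUnion Bl := by
    intro p hp
    rw [mem_filter, mem_Icc] at hp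
    rw [mem_biUnion]
    have hex : ∃ l, 2 ≤ l ∧ p ≤ zz l := ⟨L, by omega, by
      have : x ≤ zz L := hxL
      omega⟩
    refine ⟨Nat.find hex, ?_, ?_⟩
    · rw [mem_Icc]
      refine ⟨(Nat.find_spec hex).1, ?_⟩
      apply Nat.find_min' hex
      refine ⟨by omega, ?_⟩
      have : x ≤ zz L := hxL
      omega
    · rw [hBl, mem_filter, mem_Icc]
      refine ⟨⟨hp.1.1, (Nat.find_spec hex).2⟩, hp.2, ?_⟩
      by_cases h2 : Nat.find hex = 2
      · exact Or.inl h2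
      · right
        have h3 := (Nat.find_spec hex).1
        have h4 := Nat.find_min hex (m := Nat.find hex - 1) (by omega)
        by_contra hcon
        exact h4 ⟨by omega, not_lt.mp hcon⟩
  have hblock : ∀ l ∈ Icc 2 L, ∑ p ∈ Bl l, 1 / ((f p : ℝ) * (p : ℝ)) ≤
      D * (2 : ℝ) ^ ((39 / 40 : ℝ) * l) := by
    intro l hl
    rw [mem_Icc] at hl
    have hl2 : (1 : ℝ) ≤ (2 : ℝ) ^ ((39 / 40 : ℝ) * l) := Real.one_le_rpow (by norm_num) (by positivity)
    have hsub : Bl l ⊆ (Icc 1 (zz l)).filter Nat.Prime := by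
      intro p hp
      rw [hBl, mem_filter] at hp
      rw [mem_filter]
      exact ⟨hp.1, hP p hp.2.1⟩
    have hrec : ∑ p ∈ Bl l, 1 / (p : ℝ) ≤ M * 2 ^ l := by
      refine le_trans (sum_le_sum_of_subset_of_nonneg hsub fun p _ _ => by positivity) ?_
      exact hM l hl.1
    have hle : ∀ p ∈ Bl l, 1 / ((f p : ℝ) * (p : ℝ)) ≤ 1 / (p : ℝ) := by
      intro p hp
      rw [hBl, mem_filter, mem_Icc] at hp
      have h1 : (1 : ℝ) ≤ f p := by exact_mod_cast hf p hp.2.1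
      have h2 : (0 : ℝ) < p := by exact_mod_cast hp.1.1
      exact one_div_le_one_div_of_le h2 (by nlinarith)
    by_cases hlW : l < W
    · -- small blocks
      calc ∑ p ∈ Bl l, 1 / ((f p : ℝ) * (p : ℝ)) ≤ ∑ p ∈ Bl l, 1 / (p : ℝ) := sum_le_sum hle
        _ ≤ M * 2 ^ l := hrec
        _ ≤ M * 2 ^ W := mul_le_mul_of_nonneg_left
            (pow_le_pow_right₀ (by norm_num) hlW.le) hM0.le
        _ ≤ D := by
            have : 0 < (T : ℝ) * M := by positivity
            linarith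
        _ ≤ D * (2 : ℝ) ^ ((39 / 40 : ℝ) * l) := le_mul_of_one_le_right hD0.le hl2
    · rw [not_lt] at hlW
      have hl0 : L0 ≤ l := le_trans (le_max_left _ _) hlW
      have hl6 : 6 ≤ l := le_trans (le_max_right _ _) hlW
      rw [← sum_filter_add_sum_filter_not (Bl l) (fun p => (T * f p) ^ 40 ≤ 2 ^ l)]
      have hA : ∑ p ∈ (Bl l).filter (fun p => (T * f p) ^ 40 ≤ 2 ^ l), 1 / ((f p : ℝ) * (p : ℝ)) ≤ 1 := by
        have hcard := hfew l hl0 ((Bl l).filter (fun p => (T * f p) ^ 40 ≤ 2 ^ l)) (by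
          intro p hp
          rw [mem_filter, hBl, mem_filter, mem_Icc] at hp
          refine ⟨hp.1.2.1, ?_, hp.1.1.2, hp.2⟩
          rcases hp.1.2.2 with h | h
          · omega
          · exact lt_of_le_of_lt (zz_lower l (by omega)) h)
        have hterm : ∀ p ∈ (Bl l).filter (fun p => (T * f p) ^ 40 ≤ 2 ^ l),
            1 / ((f p : ℝ) * (p : ℝ)) ≤ 1 / (zz (l - 1) : ℝ) := by
          intro p hp
          rw [mem_filter] at hp
          refine (hle p hp.1).trans ?_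
          have hp1 := hp.1
          rw [hBl, mem_filter] at hp1
          have hz : 0 < zz (l - 1) := by unfold zz; positivity
          rcases hp1.2.2 with h | h
          · omega
          · exact one_div_le_one_div_of_le (by exact_mod_cast hz) (by exact_mod_cast h.le)
        refine (sum_le_card_nsmul _ _ _ hterm).trans ?_
        rw [nsmul_eq_mul, mul_one_div, div_le_one (by unfold zz; positivity)]
        have h1 : 2 ^ l * (2 * 2 ^ (2 ^ (l - 2))) ≤ zz (l - 1) := by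
          have h2 : 2 ^ l * (2 * 2 ^ (2 ^ (l - 2))) = 2 ^ (l + 1 + 2 ^ (l - 2)) := by
            rw [pow_add, pow_succ]
            ring
          rw [h2]
          unfold zz
          apply Nat.pow_le_pow_right (by norm_num)
          have h3 : l - 1 - 2 = l - 3 := by omega
          rw [h3]
          exact tiny l hl6
        exact_mod_cast hcard.trans h1
      have hB : ∑ p ∈ (Bl l).filter (fun p => ¬ (T * f p) ^ 40 ≤ 2 ^ l), 1 / ((f p : ℝ) * (p : ℝ)) ≤
          T * M * (2 : ℝ) ^ ((39 / 40 : ℝ) * l) := by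
        have hterm : ∀ p ∈ (Bl l).filter (fun p => ¬ (T * f p) ^ 40 ≤ 2 ^ l),
            1 / ((f p : ℝ) * (p : ℝ)) ≤ (T * (2 : ℝ) ^ (-((1 / 40 : ℝ) * l))) * (1 / (p : ℝ)) := by
          intro p hp
          rw [mem_filter] at hp
          have hp1 := hp.1
          rw [hBl, mem_filter, mem_Icc] at hp1
          have hf0 : (0 : ℝ) < f p := by exact_mod_cast hf p hp1.2.1
          have hp0 : (0 : ℝ) < p := by exact_mod_cast hp1.1.1
          have h1 : (2 : ℝ) ^ l < (T * f p : ℝ) ^ 40 := by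
            have := hp.2
            rw [not_le] at this
            exact_mod_cast this
          have h2 : (2 : ℝ) ^ ((1 / 40 : ℝ) * l) < T * f p := by
            have h3 : ((2 : ℝ) ^ ((1 / 40 : ℝ) * l)) ^ 40 = (2 : ℝ) ^ l := by
              rw [← Real.rpow_natCast, ← Real.rpow_mul (by norm_num), ← Real.rpow_natCast]
              congr 1
              push_cast
              ring
            rw [← h3] at h1
            exact lt_of_pow_lt_pow_left₀ 40 (by positivity) h1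
          have h4 : 1 / (f p : ℝ) ≤ T * (2 : ℝ) ^ (-((1 / 40 : ℝ) * l)) := by
            rw [Real.rpow_neg (by norm_num), div_le_iff₀ hf0]
            have h5 : 0 < (2 : ℝ) ^ ((1 / 40 : ℝ) * l) := by positivity
            rw [mul_assoc, mul_comm _ (f p : ℝ), ← mul_assoc, ← div_eq_mul_inv, le_div_iff₀ h5]
            linarith
          have h6 : 1 / ((f p : ℝ) * (p : ℝ)) = 1 / (f p : ℝ) * (1 / (p : ℝ)) := by
            field_simp
          rw [h6]
          exact mul_le_mul_of_nonneg_right h4 (by positivity)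
        refine (sum_le_sum hterm).trans ?_
        rw [← mul_sum]
        have h7 : ∑ p ∈ (Bl l).filter (fun p => ¬ (T * f p) ^ 40 ≤ 2 ^ l), 1 / (p : ℝ) ≤ M * 2 ^ l :=
          le_trans (sum_le_sum_of_subset_of_nonneg (filter_subset _ _) fun p _ _ => by positivity) hrec
        refine (mul_le_mul_of_nonneg_left h7 (by positivity)).trans (le_of_eq ?_)
        have h8 : (2 : ℝ) ^ ((39 / 40 : ℝ) * l) = (2 : ℝ) ^ (-((1 / 40 : ℝ) * l)) * 2 ^ l := by
          rw [← Real.rpow_natCast 2 l, ← Real.rpow_add (by norm_num)]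
          congr 1
          ring
        rw [h8]
        ring
      have hMW : 0 ≤ M * (2 : ℝ) ^ W := by positivity
      calc _ ≤ 1 + T * M * (2 : ℝ) ^ ((39 / 40 : ℝ) * l) := add_le_add hA hB
        _ ≤ D * (2 : ℝ) ^ ((39 / 40 : ℝ) * l) := by
            rw [hD]
            nlinarith
  calc ∑ p ∈ (Icc 1 x).filter (fun p => p ∈ P), 1 / ((f p : ℝ) * (p : ℝ))
      ≤ ∑ p ∈ (Icc 2 L).biUnion Bl, 1 / ((f p : ℝ) * (p : ℝ)) :=
        sum_le_sum_of_subset_of_nonneg hcover fun p _ _ => hpos p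
    _ ≤ ∑ l ∈ Icc 2 L, ∑ p ∈ Bl l, 1 / ((f p : ℝ) * (p : ℝ)) :=
        sum_biUnion_le_rc _ _ _ hpos
    _ ≤ ∑ l ∈ Icc 2 L, D * (2 : ℝ) ^ ((39 / 40 : ℝ) * l) := sum_le_sum hblock
    _ ≤ ∑ l ∈ Icc 0 L, D * (2 : ℝ) ^ ((39 / 40 : ℝ) * l) :=
        sum_le_sum_of_subset_of_nonneg (Icc_subset_Icc_left (by norm_num)) fun l _ _ => by positivity

end Pool.Agent.Helper37.PSE
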