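import Pool.Agent.Helper51.PS.Cl
import Pool.Agent.Helper37.PSE.Total

/-!
E2 of the project PS: the members `s * p`.
-/

set_option autoImplicit false

namespace Pool.Agent.Helper37.PSE

open Finset
open Pool.Agent.Helper51.BR (Sp)
open Pool.Agent.Helper51.PS

theorem fiber_card (A : Set ℕ) (K : ℕ) (h0 : ∀ n ∈ A, 0 < n)
    (hmult : ∀ p : ℕ, p.Prime → K < p → ∀ S : Finset ℕ,
      (∀ n ∈ S, n ∈ A ∧ p ∣ n ∧ ¬ Sp K n) → S.card ≤ K)
    (p : ℕ) (hp : p.Prime) (hKp : K < p) (S : Finset ℕ)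
    (hS : ∀ n ∈ S, n ∈ A ∧ ∃ s, n = s * p ∧ 0 < s ∧ Sm K s) : S.card ≤ 2 * K := by
  classical
  rw [← card_filter_add_card_filter_not (s := S) (fun n => Sp K n)]
  have h1 : (S.filter (fun n => ¬ Sp K n)).card ≤ K := by
    apply hmult p hp hKp
    intro n hn
    rw [mem_filter] at hn
    obtain ⟨hnA, s, hs, -, -⟩ := hS n hn.1
    exact ⟨hnA, ⟨s, by rw [hs, mul_comm]⟩, hn.2⟩
  have h2 : (S.filter (fun n => Sp K n)).card ≤ K := by
    have hsub : S.filter (fun n => Sp K n) ⊆ (Icc 1 K).image (fun s => s * p) := by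
      intro n hn
      rw [mem_filter] at hn
      obtain ⟨hnA, s, hs, hs0, hsm⟩ := hS n hn.1
      obtain ⟨t, m, htK, hm, hnt⟩ := hn.2
      have hn0 := h0 n hnA
      have ht0 : 0 < t := by
        rcases Nat.eq_zero_or_pos t with h | h
        · rw [h, zero_mul] at hnt
          omega
        · exact h
      obtain ⟨r, j, hr, hj, rfl⟩ := (isPrimePow_nat_iff m).1 hm
      have hpt : ¬ p ∣ t := fun h => by
        have := Nat.le_of_dvd ht0 h
        omega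
      have hpn : p ∣ t * r ^ j := by
        rw [← hnt, hs]
        exact dvd_mul_left p s
      have hpr : p = r := by
        rcases (hp.dvd_mul).1 hpn with h | h
        · exact absurd h hpt
        · exact (Nat.prime_dvd_prime_iff_eq hp hr).1 (hp.dvd_of_dvd_pow h)
      subst hpr
      have hj1 : j = 1 := by
        by_contra hne
        have hj2 : 2 ≤ j := by omega
        have h3 : p * p ∣ s * p := by
          rw [← hs, hnt]
          refine Dvd.dvd.mul_left ?_ t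
          rw [← pow_two]
          exact pow_dvd_pow p hj2
        have h4 : p ∣ s := Nat.dvd_of_mul_dvd_mul_right hp.pos h3
        have := hsm p hp h4
        omega
      subst hj1
      rw [mem_image]
      refine ⟨t, mem_Icc.2 ⟨ht0, htK⟩, ?_⟩
      rw [hnt, pow_one]
    calc (S.filter (fun n => Sp K n)).card ≤ ((Icc 1 K).image (fun s => s * p)).card :=
          card_le_card hsub
      _ ≤ (Icc 1 K).card := card_image_le
      _ = K := by simp
  omega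

open Classical in
/-- E2. -/
theorem lin_bound (A : Set ℕ) (K : ℕ) (hK : 2 ≤ K) (h0 : ∀ n ∈ A, 0 < n)
    (hmult : ∀ p : ℕ, p.Prime → K < p → ∀ S : Finset ℕ,
      (∀ n ∈ S, n ∈ A ∧ p ∣ n ∧ ¬ Sp K n) → S.card ≤ K)
    (L₀ : ℕ)
    (hfew : ∀ l ≥ L₀, ∀ s : ℕ, 0 < s → Sm K s → (4 * K.factorial * s) ^ 40 ≤ 2 ^ l →
      ∀ P : Finset ℕ, (∀ p ∈ P, p ∈ Cl A K s ∧ 2 ^ (2 ^ (l - 2)) < p ∧
        p ≤ 2 ^ (2 ^ (2 ^ (l - 2)))) → P.card < 2 * 2 ^ (2 ^ (l - 2))) :
    ∃ C ε : ℝ, 0 < C ∧ 0 < ε ∧ ε < 1 ∧ ∀ x : ℕ, 16 ≤ x →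
      ∑ n ∈ (Icc 1 x).filter (fun n => n ∈ Lin A K), 1 / (n : ℝ) ≤
        C * (Real.log (Real.log x)) ^ (1 - ε) := by
  -- the least cofactor
  obtain ⟨f, hf⟩ : ∃ f : ℕ → ℕ, ∀ p, (∃ s, 0 < s ∧ Sm K s ∧ s * p ∈ A) →
      (0 < f p ∧ Sm K (f p) ∧ f p * p ∈ A) ∧ ∀ s, 0 < s → Sm K s → s * p ∈ A → f p ≤ s := by
    refine ⟨fun p => if h : ∃ s, 0 < s ∧ Sm K s ∧ s * p ∈ A then Nat.find h else 1, ?_⟩
    intro p h
    simp only [dif_pos h]
    exact ⟨Nat.find_spec h, fun s h1 h2 h3 => Nat.find_min' h ⟨h1, h2, h3⟩⟩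
  obtain ⟨P, hPdef⟩ : ∃ P : Set ℕ, ∀ p, p ∈ P ↔ p.Prime ∧ K < p ∧ ∃ s, 0 < s ∧ Sm K s ∧ s * p ∈ A :=
    ⟨{p | p.Prime ∧ K < p ∧ ∃ s, 0 < s ∧ Sm K s ∧ s * p ∈ A}, fun p => Iff.rfl⟩
  have hT : 1 ≤ 4 * K.factorial := by
    have := K.factorial_pos
    omega
  obtain ⟨C, ε, hC, hε, hε1, hmain⟩ := block_total P f (4 * K.factorial) L₀ hT
    (fun p hp => ((hPdef p).1 hp).1) (fun p hp => (hf p ((hPdef p).1 hp).2.2).1.1) (by
    intro l hl Q hQ
    have h1 : Q.card ≤ (2 * 2 ^ (2 ^ (l - 2))) * (Q.image f).card := by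
      apply card_le_mul_card_image
      intro s hs
      rw [mem_image] at hs
      obtain ⟨p₀, hp₀, hps⟩ := hs
      have hp₀Q := hQ p₀ hp₀
      have hfp := (hf p₀ ((hPdef p₀).1 hp₀Q.1).2.2).1
      rw [hps] at hfp
      refine (hfew l hl s hfp.1 hfp.2.1 (by rw [← hps]; exact hp₀Q.2.2.2) _ ?_).le
      intro p hp
      rw [mem_filter] at hp
      have hpQ := hQ p hp.1
      obtain ⟨hpp, hKp, hex⟩ := (hPdef p).1 hpQ.1
      obtain ⟨⟨g1, g2, g3⟩, g4⟩ := hf p hex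
      rw [hp.2] at g1 g2 g3 g4
      refine ⟨⟨hpp, hKp, g3, ?_⟩, hpQ.2.1, hpQ.2.2.1⟩
      intro s' hs' hne hA
      have hs'0 : 0 < s' := Nat.pos_of_dvd_of_pos hs' g1
      have hs'le : s' ≤ s := Nat.le_of_dvd g1 hs'
      have := g4 s' hs'0 (fun r hr hrs => g2 r hr (hrs.trans hs')) hA
      omega
    have h2 : (Q.image f).card ≤ 2 ^ l := by
      have hsub : Q.image f ⊆ Icc 1 (2 ^ l) := by
        intro s hs
        rw [mem_image] at hs
        obtain ⟨p, hp, rfl⟩ := hs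
        have hpQ := hQ p hp
        have hfp := (hf p ((hPdef p).1 hpQ.1).2.2).1.1
        rw [mem_Icc]
        refine ⟨hfp, le_trans ?_ hpQ.2.2.2⟩
        have h3 : f p ≤ 4 * K.factorial * f p := Nat.le_mul_of_pos_left _ (by omega)
        exact h3.trans (Nat.le_self_pow (by norm_num) _)
      calc (Q.image f).card ≤ (Icc 1 (2 ^ l)).card := card_le_card hsub
        _ = 2 ^ l := by simp
    calc Q.card ≤ (2 * 2 ^ (2 ^ (l - 2))) * (Q.image f).card := h1
      _ ≤ (2 * 2 ^ (2 ^ (l - 2))) * 2 ^ l := Nat.mul_le_mul_left _ h2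
      _ = 2 ^ l * (2 * 2 ^ (2 ^ (l - 2))) := by ring)
  refine ⟨2 * K * C, ε, by positivity, hε, hε1, ?_⟩
  intro x hx
  -- the prime of a member
  have hch : ∀ n ∈ Lin A K, ∃ p, p.Prime ∧ K < p ∧ ∃ s, n = s * p ∧ 0 < s ∧ Sm K s := by
    rintro n ⟨-, s, p, h1, h2, h3, h4, h5⟩
    exact ⟨p, h4, h5, s, h1, h2, h3⟩
  choose! g hg1 hg2 hg3 using hch
  set S := (Icc 1 x).filter (fun n => n ∈ Lin A K) with hS
  have hmem : ∀ n ∈ S, g n ∈ (Icc 1 x).filter (fun p => p ∈ P) := by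
    intro n hn
    rw [hS, mem_filter, mem_Icc] at hn
    obtain ⟨s, h1, h2, h3⟩ := hg3 n hn.2
    have hgp := hg1 n hn.2
    rw [mem_filter, mem_Icc]
    refine ⟨⟨hgp.pos, ?_⟩, (hPdef _).2 ⟨hgp, hg2 n hn.2, s, h2, h3, ?_⟩⟩
    · have h4 : g n ≤ s * g n := Nat.le_mul_of_pos_left _ h2
      omega
    · rw [← h1]
      exact hn.2.1
  have hterm : ∀ n ∈ S, 1 / (n : ℝ) ≤ 1 / ((f (g n) : ℝ) * (g n : ℝ)) := by
    intro n hn
    have hm := hmem n hn
    rw [mem_filter] at hm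
    obtain ⟨hpp, hKp, hex⟩ := (hPdef _).1 hm.2
    rw [hS, mem_filter, mem_Icc] at hn
    obtain ⟨s, h1, h2, h3⟩ := hg3 n hn.2
    have h4 := (hf (g n) hex).2 s h2 h3 (by rw [← h1]; exact hn.2.1)
    have h5 := (hf (g n) hex).1.1
    have h6 : f (g n) * g n ≤ n := by
      calc f (g n) * g n ≤ s * g n := Nat.mul_le_mul_right _ h4
        _ = n := h1.symm
    apply one_div_le_one_div_of_le
    · have : 0 < f (g n) * g n := Nat.mul_pos h5 hpp.pos
      exact_mod_cast this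
    · exact_mod_cast h6
  calc ∑ n ∈ S, 1 / (n : ℝ) ≤ ∑ n ∈ S, 1 / ((f (g n) : ℝ) * (g n : ℝ)) := sum_le_sum hterm
    _ = ∑ p ∈ (Icc 1 x).filter (fun p => p ∈ P), ∑ n ∈ S.filter (fun n => g n = p),
          1 / ((f (g n) : ℝ) * (g n : ℝ)) := (sum_fiberwise_of_maps_to hmem _).symm
    _ ≤ ∑ p ∈ (Icc 1 x).filter (fun p => p ∈ P), 2 * K * (1 / ((f p : ℝ) * (p : ℝ))) := by
        apply sum_le_sum
        intro p hp
        rw [mem_filter] at hp
        obtain ⟨hpp, hKp, hex⟩ := (hPdef p).1 hp.2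
        have hc : (S.filter (fun n => g n = p)).card ≤ 2 * K := by
          apply fiber_card A K h0 hmult p hpp hKp
          intro n hn
          rw [mem_filter, hS, mem_filter] at hn
          obtain ⟨s, h1, h2, h3⟩ := hg3 n hn.1.2
          rw [hn.2] at h1
          exact ⟨hn.1.2.1, s, h1, h2, h3⟩
        have h1 : ∑ n ∈ S.filter (fun n => g n = p), 1 / ((f (g n) : ℝ) * (g n : ℝ)) =
            (S.filter (fun n => g n = p)).card * (1 / ((f p : ℝ) * (p : ℝ))) := by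
          rw [← nsmul_eq_mul, ← sum_const]
          apply sum_congr rfl
          intro n hn
          rw [mem_filter] at hn
          rw [hn.2]
        rw [h1]
        apply mul_le_mul_of_nonneg_right _ (by positivity)
        exact_mod_cast hc
    _ = 2 * K * ∑ p ∈ (Icc 1 x).filter (fun p => p ∈ P), 1 / ((f p : ℝ) * (p : ℝ)) := by
        rw [mul_sum]
    _ ≤ 2 * K * (C * (Real.log (Real.log x)) ^ (1 - ε)) :=
        mul_le_mul_of_nonneg_left (hmain x hx) (by positivity)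
    _ = 2 * K * C * (Real.log (Real.log x)) ^ (1 - ε) := by ring

end Pool.Agent.Helper37.PSE
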